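import Pool.Agent.P.MP_f9323a_an.TrC

open Pool.Agent.P.MP_f9323a_an

theorem Pool.Agent.Results.MP_f9323a_an.TraceBound.result :
    ∀ β : ℝ, 0 < β → β < 1 →
      ∃ C : ℝ, ∀ f : ℤ → ℝ, Summable (fun n => |f (n + 1) - f n|) → (∃ n, maxFn β f n ≠ ⊤) →
        (∀ n, maxFn β f n ≠ ⊤) ∧ ∀ w : ℤ → ℝ, (∀ n, 0 ≤ w n) →
          (∀ (x : ℤ) (N : ℕ), ∑ n ∈ Finset.Ico x (x + N), w n ≤ (N : ℝ) ^ (1 - β)) →
          Summable (fun n => w n * |(maxFn β f (n + 1)).toReal - (maxFn β f n).toReal|) ∧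
          ∑' n, w n * |(maxFn β f (n + 1)).toReal - (maxFn β f n).toReal| ≤
            C * ∑' n, |f (n + 1) - f n| :=
  Tr.trace

/-- Side theorem, not the hand-in: the bound of the question for each fixed exponent. -/
theorem Pool.Agent.Results.MP_f9323a_an.TraceBound.posed (β q : ℝ) (h0 : 0 < β) (h1 : β < 1)
    (hq : q = 1 / (1 - β)) :
    ∃ C : ℝ, ∀ f : ℤ → ℝ, Summable (fun n => |f (n + 1) - f n|) → (∃ n, maxFn β f n ≠ ⊤) →
      Summable (fun n => |(maxFn β f (n + 1)).toReal - (maxFn β f n).toReal| ^ q) ∧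
      (∑' n, |(maxFn β f (n + 1)).toReal - (maxFn β f n).toReal| ^ q) ^ (1 / q) ≤
        C * ∑' n, |f (n + 1) - f n| :=
  (Pool.Agent.Results.MP_f9323a_an.TraceBound.result β h0 h1).imp fun _ h f hf hn =>
    Tr.dual_lq h0 h1 hq (fun _ => abs_nonneg _) (h f hf hn).2

/-- Side theorem, not the hand-in: the Lorentz form, uniformly over all listings `ν` of distinct
integers. -/
theorem Pool.Agent.Results.MP_f9323a_an.TraceBound.lorentz (β : ℝ) (h0 : 0 < β) (h1 : β < 1) :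
    ∃ C : ℝ, ∀ f : ℤ → ℝ, Summable (fun n => |f (n + 1) - f n|) → (∃ n, maxFn β f n ≠ ⊤) →
      ∀ ν : ℕ → ℤ, (∀ i j, ν i = ν j → i = j) →
        Summable (fun j : ℕ => (1 - β) * ((j : ℝ) + 1) ^ (-β) *
          |(maxFn β f (ν j + 1)).toReal - (maxFn β f (ν j)).toReal|) ∧
        ∑' j : ℕ, (1 - β) * ((j : ℝ) + 1) ^ (-β) *
          |(maxFn β f (ν j + 1)).toReal - (maxFn β f (ν j)).toReal| ≤
          C * ∑' n, |f (n + 1) - f n| :=
  (Pool.Agent.Results.MP_f9323a_an.TraceBound.result β h0 h1).imp fun _ h f hf hn ν hν =>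
    Tr.dual_lorentz (d := fun n => |(maxFn β f (n + 1)).toReal - (maxFn β f n).toReal|) h0 h1
      (h f hf hn).2 ν hν

/-- Side theorem, not the hand-in: the condition on the weight is necessary. -/
theorem Pool.Agent.Results.MP_f9323a_an.TraceBound.necessary (β K : ℝ) (h0 : 0 < β) (h1 : β < 1)
    (w : ℤ → ℝ) (hw : ∀ n, 0 ≤ w n)
    (H : ∀ f : ℤ → ℝ, Summable (fun n => |f (n + 1) - f n|) → (∃ n, maxFn β f n ≠ ⊤) →
      Summable (fun n => w n * |(maxFn β f (n + 1)).toReal - (maxFn β f n).toReal|) ∧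
      ∑' n, w n * |(maxFn β f (n + 1)).toReal - (maxFn β f n).toReal| ≤
        K * ∑' n, |f (n + 1) - f n|) (x : ℤ) (N : ℕ) :
    ∑ n ∈ Finset.Ico x (x + N), w n ≤ 32 / (1 - β) * K * (N : ℝ) ^ (1 - β) :=
  Tr.converse h0 h1 hw H x N
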