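import Pool.Agent.P.MP_f9323a_an.UncB

open Pool.Agent.P.MP_f9323a_an

theorem Pool.Agent.Results.MP_f9323a_an.UncenteredSharp.result :
    ∀ β q : ℝ, 0 < β → β < 1 → q = 1 / (1 - β) →
      IsLeast {K : ℝ | ∀ f : ℤ → ℝ, Summable (fun n => |f (n + 1) - f n|) →
        (∃ n, maxFnU β f n ≠ ⊤) → (∀ n, maxFnU β f n ≠ ⊤) ∧
        Summable (fun n => |(maxFnU β f (n + 1)).toReal - (maxFnU β f n).toReal| ^ q) ∧
        (∑' n, |(maxFnU β f (n + 1)).toReal - (maxFnU β f n).toReal| ^ q) ^ (1 / q) ≤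
          K * ∑' n, |f (n + 1) - f n|} (2 ^ (-β) * (1 - β) ^ (2 - β)) :=
  Unc.best
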